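import Mathlib

/-!
Ovoids of `PG(3, 2^h)`: the tensor space, operators at a digit, Frobenius twists (MP_c637b9_co).
-/

set_option autoImplicit false
set_option linter.unusedSectionVars false

namespace Pool.OVP

open Finset

/-- Standing assumption: `|F| = 2^h`, `h ≥ 2`. -/
class Fld (F : Type) (h : ℕ) [Field F] [Fintype F] : Prop where
  card : Fintype.card F = 2 ^ h
  two : 2 ≤ h

/-- Vectors (letters). The basis vectors `0, 1, 2, 3` are called `x, s, t, f`; the partner of the
letter `i` is `i.rev`. -/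
abbrev V (F : Type) := Fin 4 → F

/-- The tensor space: coefficients of the words `ZMod h → Fin 4`. -/
abbrev E (F : Type) (h : ℕ) := (ZMod h → Fin 4) → F

section Field
variable {F : Type} [Field F]

/-- The symplectic form. -/
def om (v w : V F) : F := v 0 * w 3 + v 3 * w 0 + v 1 * w 2 + v 2 * w 1

/-- The quadratic form. -/
def Qf (v : V F) : F := v 0 * v 3 + v 1 * v 2

/-- The matrices `1, j_xs, j_xt, j_sf, j_tf`. -/
def jm : Fin 5 → Matrix (Fin 4) (Fin 4) F :=
  ![1,
    !![0, 0, 1, 0; 0, 0, 0, 1; 0, 0, 0, 0; 0, 0, 0, 0],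
    !![0, 1, 0, 0; 0, 0, 0, 0; 0, 0, 0, 1; 0, 0, 0, 0],
    !![0, 0, 0, 0; 1, 0, 0, 0; 0, 0, 0, 0; 0, 0, 1, 0],
    !![0, 0, 0, 0; 0, 0, 0, 0; 1, 0, 0, 0; 0, 1, 0, 0]]

/-- The Clifford matrices `γ(c)` on the indices `xs, xt, sf, tf`. -/
def gm (c : V F) : Matrix (Fin 4) (Fin 4) F :=
  !![0, c 1, c 0, 0; c 2, 0, 0, c 0; c 3, 0, 0, c 1; 0, c 3, c 2, 0]

/-- The coefficients `[j_a, j_a'] = g(a, a') 1` on the indices `xs, xt, sf, tf`. -/
def gg (a a' : Fin 4) : F := if a' = a.rev then 1 else 0

variable {h : ℕ} [NeZero h]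

/-- The product form on the tensor space. -/
def pr (φ ψ : E F h) : F := ∑ w, φ w * ψ fun k => (w k).rev

/-- The matrix `A` acting at the digit `m`. -/
def rho (m : ZMod h) (A : Matrix (Fin 4) (Fin 4) F) : Module.End F (E F h) where
  toFun φ w := ∑ j, A (w m) j * φ (Function.update w m j)
  map_add' φ ψ := by
    funext w
    simp [mul_add, sum_add_distrib]
  map_smul' c φ := by
    funext w
    simp only [Pi.smul_apply, smul_eq_mul, RingHom.id_apply, mul_sum]
    exact sum_congr rfl fun j _ => by ring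

/-- The operator commutes with everything at the digit `m`. -/
def Cm (m : ZMod h) (A : Module.End F (E F h)) : Prop :=
  ∀ M : Matrix (Fin 4) (Fin 4) F, A * rho m M = rho m M * A

/-- The matrix entry `(p, q)` at the digit `k` of an operator. -/
def ext (k : ZMod h) (p q : Fin 4) (A : Module.End F (E F h)) : Module.End F (E F h) :=
  ∑ r, rho k (Matrix.single r p 1) * A * rho k (Matrix.single q r 1)

/-- The positions at which the coefficients of `1, j_xs, j_xt, j_sf, j_tf` are read off. -/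
def pq : Fin 5 → Fin 4 × Fin 4 := ![(0, 0), (0, 2), (0, 1), (1, 0), (2, 0)]

/-- The coefficient of `jm b` at the digit `k` of an operator. -/
def cf (k : ZMod h) (b : Fin 5) (A : Module.End F (E F h)) : Module.End F (E F h) :=
  ext k (pq b).1 (pq b).2 A

/-- `ext` as a linear map. -/
def extL (k : ZMod h) (p q : Fin 4) :
    Module.End F (E F h) →ₗ[F] Module.End F (E F h) where
  toFun := ext k p q
  map_add' A B := by
    simp only [ext, mul_add, add_mul, sum_add_distrib]
  map_smul' c A := by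
    simp only [ext, mul_smul_comm, smul_mul_assoc, smul_sum, RingHom.id_apply]

/-- The coefficients of `jm b` at the digit `k` of a family of operators. -/
def cfL (k : ZMod h) (Θ : V F →ₗ[F] Module.End F (E F h)) (b : Fin 5) :
    V F →ₗ[F] Module.End F (E F h) := extL k (pq b).1 (pq b).2 ∘ₗ Θ

/-- Pure tensors. -/
def ten (v : ZMod h → V F) : E F h := fun w => ∏ k, v k (w k)

end Field

section Frob
variable {F : Type} [Field F] [Fintype F] [CharP F 2] {h : ℕ} [NeZero h]

/-- The Frobenius power `x ↦ x^(2^a)`, `a ∈ ℤ/h`. -/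
def fr (a : ZMod h) : F →+* F := iterateFrobenius F 2 a.val

/-- The Frobenius power on vectors. -/
def frV (a : ZMod h) (v : V F) : V F := fun i => fr a (v i)

/-- The tensor of a vector: `v^(k)` at the digit `k`. -/
def hat (y : V F) : E F h := fun w => ∏ k, fr k (y (w k))

/-- The letter `v` at the digit `k` as a function. -/
def lt (k : ZMod h) (v y : V F) : F := om v (frV k y)

/-- The shift of the tensor space, semilinear. -/
def Phi (m : ZMod h) (φ : E F h) : E F h := fun w => fr m (φ fun k => w (k + m))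

end Frob

section Ovoid
variable {F : Type} [Field F] [Fintype F] [CharP F 2] (h : ℕ) [NeZero h]
variable {ι : Type} [Fintype ι] [DecidableEq ι]

/-- An ovoid: `q^2 + 1` vectors, pairwise not perpendicular, no three collinear. -/
structure Ov (y : ι → V F) : Prop where
  card : Fintype.card ι = Fintype.card F ^ 2 + 1
  ne : ∀ i j, i ≠ j → om (y i) (y j) ≠ 0
  col : ∀ i j l, i ≠ j → i ≠ l → j ≠ l → ∀ c d : F, y l ≠ c • y i + d • y j

/-- FACT 1: the tensors of the points span, and `∑ φ(y) ψ(y) = ⟨φ, ψ⟩`. -/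
structure Sp (y : ι → V F) : Prop where
  span : Submodule.span F (Set.range fun i => (hat (y i) : E F h)) = ⊤
  pair : ∀ φ ψ : E F h, ∑ i, pr φ (hat (y i)) * pr ψ (hat (y i)) = pr φ ψ
  zero : ∑ i, (hat (y i) : E F h) = 0

variable {h}

/-- The structure operator. -/
structure Th (y : ι → V F) (Θ : V F →ₗ[F] Module.End F (E F h)) : Prop where
  sp : Sp h y
  c0 : ∀ z, Cm 0 (Θ z)
  c1 : ∀ z, Cm 1 (Θ z)
  sa : ∀ z φ ψ, pr (Θ z φ) ψ = pr φ (Θ z ψ)
  e5 : ∀ i, Θ (frV (1 : ZMod h) (y i)) (hat (y i)) = Qf (y i) • hat (y i)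
  slot : ∀ k : ZMod h, k ≠ 0 → k ≠ 1 → ∀ z, Θ z = ∑ b, rho k (jm b) * cf k b (Θ z)

/-- The set of digits at which the operator acts. -/
def supp (Θ : V F →ₗ[F] Module.End F (E F h)) : Set (ZMod h) := {m | ¬ ∀ z, Cm m (Θ z)}

end Ovoid

end Pool.OVP
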