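import Pool.Agent.H20.OVP.Defs

/-!
Statements of the modules for the classification of ovoids of `PG(3, 2^h)` (MP_c637b9_co).
-/

set_option autoImplicit false
set_option linter.unusedSectionVars false

namespace Pool.OVP

open Finset Matrix

/-! ### Linear algebra -/

section Abstract

/-- Sum of the ranges of a family of operators. -/
def RS {K W : Type} [Field K] [AddCommGroup W] [Module K W]
    (C : Fin 4 → V K →ₗ[K] Module.End K W) : Submodule K W :=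
  ⨆ (b : Fin 4) (z : V K), LinearMap.range (C b z)

/-- Data of sections 1 - 3 (OVO_PROOF): self-adjoint families with (L) and (R). -/
structure LR {K W : Type} [Field K] [AddCommGroup W] [Module K W] (B : LinearMap.BilinForm K W)
    (C : Fin 4 → V K →ₗ[K] Module.End K W) (G : Fin 5 → V K →ₗ[K] Module.End K W) : Prop where
  symm : ∀ x y, B x y = B y x
  nondeg : ∀ x, (∀ y, B x y = 0) → x = 0
  Csa : ∀ b z x y, B (C b z x) y = B x (C b z y)
  Gsa : ∀ a c x y, B (G a c x) y = B x (G a c y)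
  L : ∀ b c z, ∑ a, G a c * C b (jm a *ᵥ z) = ∑ b', gm c b b' • C b' z
  R : ∀ b c z, ∑ a, C b (jm a *ᵥ z) * G a c = ∑ b', gm c b b' • C b' z

/-- ABS1: (i) stability, (ii) centrality, (iii) commutation, (iv) surjectivity of the block map. -/
def Abs1Stmt : Prop :=
  ∀ {K W : Type} [Field K] [CharP K 2] [AddCommGroup W] [Module K W] [FiniteDimensional K W]
    (B : LinearMap.BilinForm K W) (C : Fin 4 → V K →ₗ[K] Module.End K W)
    (G : Fin 5 → V K →ₗ[K] Module.End K W), LR B C G →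
    (∀ a c, ∀ x ∈ RS C, G a c x ∈ RS C) ∧
    (∀ P P' : Module.End K W, (∀ b z, P * C b z = C b z * P') →
      ∀ a c, ∀ x ∈ RS C, P (G a c x) = G a c (P x)) ∧
    (∀ a, a ≠ 0 → ∀ c a' c', ∀ x ∈ RS C, G a c (G a' c' x) = G a' c' (G a c x)) ∧
    ∀ η : V K →ₗ[K] W, (∀ z, η z ∈ RS C) →
      ∃ ξ : Fin 4 → W, (∀ a, ξ a ∈ RS C) ∧ ∀ z, η z = ∑ a : Fin 4, G a.succ z (ξ a)

/-- ABS2 (section 4): the Clifford matrices over the commutative algebra. `ψ c i j : U → U`,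
linear in `c`. -/
def Abs2Stmt : Prop :=
  ∀ {K U : Type} [Field K] [CharP K 2] [AddCommGroup U] [Module K U] [FiniteDimensional K U]
    (G : Fin 4 → V K →ₗ[K] Module.End K U),
    (∀ a c a' c', G a c * G a' c' = G a' c' * G a c) →
    (∀ η : V K →ₗ[K] U, ∃ ξ : Fin 4 → U, ∀ z, η z = ∑ a : Fin 4, G a z (ξ a)) →
    ∃ ψ : V K →ₗ[K] Fin 4 → Fin 4 → Module.End K U,
      (∀ c i j, ψ c i j ∈ Algebra.adjoin K {A | ∃ a z, A = G a z}) ∧
      (∀ c i j c' i' j', ψ c i j * ψ c' i' j' = ψ c' i' j' * ψ c i j) ∧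
      (∀ c a i, ∑ j, ψ c i j * G a (Pi.single j 1) = ∑ a', gm c a a' • G a' (Pi.single i 1)) ∧
      ∀ c d i j, ∑ q, (ψ c i q * ψ d q j + ψ d i q * ψ c q j) =
        if i = j then om c d • (1 : Module.End K U) else 0

end Abstract

/-! ### Operators on the tensor space -/

section Ops
variable (F : Type) [Field F] [Fintype F] [CharP F 2] (h : ℕ) [NeZero h] [Fld F h]

/-- GEO: from `(∑ j_b C_b) ŷ = μ ŷ` at the digit `m` one gets `γ(y_{m+1}) C ŷ = Q_m(y) C ŷ`. -/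
def GeoStmt : Prop :=
  ∀ (y : V F) (m : ZMod h) (C : Fin 5 → Module.End F (E F h)) (μ : F), (∀ b, Cm m (C b)) →
    (∑ b, rho m (jm b) (C b (hat y)) = μ • (hat y : E F h)) →
    ∀ b : Fin 4, ∑ b' : Fin 4, gm (frV (m + 1) y) b b' • C b'.succ (hat y) =
      fr m (Qf y) • C b.succ (hat y)

/-- SP2: a bilinear family which commutes with two digits and kills all the points is zero. -/
def Sp2Stmt : Prop :=
  ∀ {ι : Type} [Fintype ι] [DecidableEq ι] (y : ι → V F), Sp h y → ∀ m n : ZMod h, m ≠ n →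
    ∀ Ψ : V F →ₗ[F] V F →ₗ[F] Module.End F (E F h), (∀ c z, Cm m (Ψ c z) ∧ Cm n (Ψ c z)) →
    (∀ i, Ψ (frV m (y i)) (frV n (y i)) (hat (y i)) = 0) → ∀ c z, Ψ c z = 0

/-- E18 (uses GEO, SP2): the right form (R). -/
def E18Stmt : Prop :=
  ∀ {ι : Type} [Fintype ι] [DecidableEq ι] (y : ι → V F), Sp h y → ∀ k : ZMod h, k ≠ 0 → k ≠ 1 →
    ∀ C G : Fin 5 → V F →ₗ[F] Module.End F (E F h),
    (∀ b z, Cm 1 (C b z) ∧ Cm k (C b z) ∧ Cm (k + 1) (C b z)) →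
    (∀ a c, Cm 1 (G a c) ∧ Cm (k + 1) (G a c)) →
    (∀ i, ∑ b, rho k (jm b) (C b (frV (1 : ZMod h) (y i)) (hat (y i))) =
      Qf (y i) • (hat (y i) : E F h)) →
    (∀ i, ∑ a, rho 1 (jm a) (G a (frV (k + 1) (y i)) (hat (y i))) =
      fr k (Qf (y i)) • (hat (y i) : E F h)) →
    ∀ (b : Fin 4) (c z : V F), ∑ a, C b.succ (jm a *ᵥ z) * G a c =
      ∑ b' : Fin 4, gm c b b' • C b'.succ z

/-- PSI (uses GEO): `Q_1 ⟨φ, ŷ⟩ = ⟨Ψ_{y_2} φ, ŷ⟩` on `U`, where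
`Ψ_c = ∑ ρ_{k+1}(single i.rev j.rev) ψ_{c,i,j}`; `GU`, `RU` are the restrictions of `G` and of
`ρ_{k+1}` to `U`. -/
def PsiStmt : Prop :=
  ∀ (y : V F), y ≠ 0 → ∀ k : ZMod h, k ≠ 0 →
    ∀ (G : Fin 5 → V F →ₗ[F] Module.End F (E F h)) (U : Submodule F (E F h))
      (GU : Fin 4 → V F →ₗ[F] Module.End F U) (RU : Matrix (Fin 4) (Fin 4) F → Module.End F U)
      (ψ : V F →ₗ[F] Fin 4 → Fin 4 → Module.End F U),
    (∀ a z (φ : U), (GU a z φ : E F h) = G a.succ z φ) →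
    (∀ A (φ : U), (RU A φ : E F h) = rho (k + 1) A φ) →
    (∀ a c, Cm 1 (G a c)) →
    (∀ a c φ χ, pr (G a c φ) χ = pr φ (G a c χ)) →
    (∑ a, rho 1 (jm a) (G a (frV (k + 1) y) (hat y)) = fr k (Qf y) • (hat y : E F h)) →
    (∀ η : V F →ₗ[F] U, ∃ ξ : Fin 4 → U, ∀ z, η z = ∑ a : Fin 4, GU a z (ξ a)) →
    (∀ c a i, ∑ j, ψ c i j * GU a (Pi.single j 1) = ∑ a', gm c a a' • GU a' (Pi.single i 1)) →
    (∀ c i j A, ψ c i j * RU A = RU A * ψ c i j) →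
    ∀ φ : U, fr (1 : ZMod h) (Qf y) * pr (φ : E F h) (hat y) =
      pr (∑ i, ∑ j, rho (k + 1) (Matrix.single i.rev j.rev 1)
        (ψ (frV (2 : ZMod h) y) i j φ : E F h)) (hat y)

/-- CON: the contraction. -/
def ConStmt : Prop :=
  ∀ {ι : Type} [Fintype ι] [DecidableEq ι] (y : ι → V F), Sp h y → (∀ i, y i ≠ 0) →
    ∀ r n : ZMod h, r ≠ n → ∀ χ : V F →ₗ[F] E F h,
    (∀ A i, pr (rho r A (χ (frV n (y i)))) (hat (y i)) = 0) →
    ∀ p : Fin 4, ∑ j, rho n (Matrix.single p j 1) (χ (Pi.single j 1)) = 0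

/-- The data from which FI1, FI2 and END start: the structure operator `Θ`, its twists `Θ¹ = Θ^(1)` and
`Θᵏ = Θ^(k)`, and a digit `k` at which `Θ` acts, such that it does not act at `k + 1`. -/
structure Run {ι : Type} [Fintype ι] [DecidableEq ι] (y : ι → V F) (k : ZMod h)
    (Θ Θ1 Θk : V F →ₗ[F] Module.End F (E F h)) : Prop where
  th : Th y Θ
  ne : ∀ i, y i ≠ 0
  k0 : k ≠ 0
  k1 : k ≠ 1
  kk : ∀ z, Cm (k + 1) (Θ z)
  e1 : ∀ z φ, Θ1 (frV (1 : ZMod h) z) (Phi (1 : ZMod h) φ) = Phi (1 : ZMod h) (Θ z φ)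
  ek : ∀ z φ, Θk (frV k z) (Phi k φ) = Phi k (Θ z φ)

variable {F h} in
/-- The slot operators of `Θ` at the digit `k` (indices `xs, xt, sf, tf`). -/
def slotC (k : ZMod h) (Θ : V F →ₗ[F] Module.End F (E F h)) (b : Fin 4) :
    V F →ₗ[F] Module.End F (E F h) := cfL k Θ b.succ

variable {F h} in
/-- The sum of the images of the slot operators at the digit `k`. -/
def BB (k : ZMod h) (Θ : V F →ₗ[F] Module.End F (E F h)) : Submodule F (E F h) :=
  RS (slotC k Θ)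

/-- SET (API only): the coefficients `C` of `Θ` at `k` and `G` of `Θᵏ` at `1` have all the
properties used later. -/
def SetStmt : Prop :=
  ∀ {ι : Type} [Fintype ι] [DecidableEq ι] (y : ι → V F) (k : ZMod h)
    (Θ Θ1 Θk : V F →ₗ[F] Module.End F (E F h)), Run F h y k Θ Θ1 Θk →
    (∀ b z, Cm 1 (cfL k Θ b z) ∧ Cm k (cfL k Θ b z) ∧ Cm (k + 1) (cfL k Θ b z)) ∧
    (∀ a c, Cm 1 (cfL 1 Θk a c) ∧ Cm (k + 1) (cfL 1 Θk a c)) ∧
    (∀ b z φ ψ, pr (cfL k Θ b z φ) ψ = pr φ (cfL k Θ b z ψ)) ∧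
    (∀ a c φ ψ, pr (cfL 1 Θk a c φ) ψ = pr φ (cfL 1 Θk a c ψ)) ∧
    (∀ i, ∑ b, rho k (jm b) (cfL k Θ b (frV (1 : ZMod h) (y i)) (hat (y i))) =
      Qf (y i) • (hat (y i) : E F h)) ∧
    (∀ i, ∑ a, rho 1 (jm a) (cfL 1 Θk a (frV (k + 1) (y i)) (hat (y i))) =
      fr k (Qf (y i)) • (hat (y i) : E F h)) ∧
    (∀ z, Cm 1 (Θ1 z) ∧ Cm 2 (Θ1 z)) ∧
    (∀ z, Θ1 z = ∑ b, rho (k + 1) (jm b) * cfL (k + 1) Θ1 b z) ∧
    (∀ i, Θ1 (frV (2 : ZMod h) (y i)) (hat (y i)) =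
      fr (1 : ZMod h) (Qf (y i)) • (hat (y i) : E F h)) ∧
    (∀ z φ ψ, pr (Θ1 z φ) ψ = pr φ (Θ1 z ψ))

/-- The result of sections 1 - 4: the operators `ψ` on `BB`. -/
structure PD {ι : Type} [Fintype ι] [DecidableEq ι] (y : ι → V F) (k : ZMod h)
    (Θ : V F →ₗ[F] Module.End F (E F h))
    (ψ : V F →ₗ[F] Fin 4 → Fin 4 → Module.End F (BB k Θ)) : Prop where
  st : ∀ m, (∀ b z, Cm m (slotC k Θ b z)) → ∀ A, ∀ φ ∈ BB k Θ, rho m A φ ∈ BB k Θ
  cm : ∀ m, (∀ b z, Cm m (slotC k Θ b z)) → ∀ A c i j (φ : BB k Θ)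
    (hφ : rho m A (φ : E F h) ∈ BB k Θ),
    (ψ c i j ⟨rho m A (φ : E F h), hφ⟩ : E F h) = rho m A (ψ c i j φ : E F h)
  cc : ∀ c i j c' i' j', ψ c i j * ψ c' i' j' = ψ c' i' j' * ψ c i j
  cl : ∀ c d i j, ∑ q, (ψ c i q * ψ d q j + ψ d i q * ψ c q j) =
    if i = j then om c d • (1 : Module.End F (BB k Θ)) else 0
  id : ∀ (i : ι) (φ : BB k Θ), fr (1 : ZMod h) (Qf (y i)) * pr (φ : E F h) (hat (y i)) =
    pr (∑ i', ∑ j, rho (k + 1) (Matrix.single i'.rev j.rev 1)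
      (ψ (frV (2 : ZMod h) (y i)) i' j φ : E F h)) (hat (y i))

/-- FI1 (uses SET, E18, ABS1, ABS2, PSI). -/
def Fi1Stmt : Prop :=
  ∀ {ι : Type} [Fintype ι] [DecidableEq ι] (y : ι → V F) (k : ZMod h)
    (Θ Θ1 Θk : V F →ₗ[F] Module.End F (E F h)), Run F h y k Θ Θ1 Θk → ∃ ψ, PD F h y k Θ ψ

/-- FI2 (uses SET, CON): `BB ⊆ BB^(1)`; if `BB` is everything then `Θ^(1)` does not act at the
digits `m ≠ k + 1` at which the slot operators at `k` do not act. -/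
def Fi2Stmt : Prop :=
  ∀ {ι : Type} [Fintype ι] [DecidableEq ι] (y : ι → V F) (k : ZMod h)
    (Θ Θ1 Θk : V F →ₗ[F] Module.End F (E F h)), Run F h y k Θ Θ1 Θk →
    (∃ ψ, PD F h y k Θ ψ) →
    BB k Θ ≤ BB (k + 1) Θ1 ∧
    (BB k Θ = ⊤ → ∀ m, m ≠ k + 1 → (∀ b z, Cm m (slotC k Θ b z)) → ∀ z, Cm m (Θ1 z))

/-- END (uses FI1, FI2): the structure operator acts at one digit only. -/
def EndStmt : Prop :=
  ∀ {ι : Type} [Fintype ι] [DecidableEq ι] (y : ι → V F) (Θ : V F →ₗ[F] Module.End F (E F h)),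
    Th y Θ → (∀ i, y i ≠ 0) → ∃ k, ∀ m, m ≠ k → ∀ z, Cm m (Θ z)

/-- The points of the ovoid given by a function. -/
def pts (f : F × F → F) : Option (F × F) → V F
  | none => ![0, 0, 0, 1]
  | some u => ![1, u.1, u.2, f u]

variable {F} in
/-- third differences vanish. -/
def Quad (f : F × F → F) : Prop :=
  ∀ u v w : F × F,
    f (u + v + w) + f (u + v) + f (u + w) + f (v + w) + f u + f v + f w + f 0 = 0

/-- QUAD: the function has algebraic degree at most two. -/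
def QuadStmt : Prop :=
  ∀ (f : F × F → F) (Θ : V F →ₗ[F] Module.End F (E F h)), Th (pts F f) Θ → ∀ k,
    (∀ m, m ≠ k → ∀ z, Cm m (Θ z)) → Quad f

end Ops

/-! ### From the ovoid to the structure operator (words) -/

section Words
variable (F : Type) [Field F] [Fintype F] [CharP F 2] (h : ℕ) [NeZero h] [Fld F h]

/-- The digits different from `0` and `1`. -/
def X : Finset (ZMod h) := univ.filter fun k => k ≠ 0 ∧ k ≠ 1

variable {F h} in
/-- `T(z; v, v') = ∑ y_0 y_1 y_2 y_3 z_1 ∏ v_k v'_k`. -/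
def TT {ι : Type} [Fintype ι] (y : ι → V F) (z : V F) (v v' : ZMod h → V F) : F :=
  ∑ i, (y i 0 * y i 1 * y i 2 * y i 3) * lt (1 : ZMod h) z (y i) *
    ∏ k ∈ X h, lt k (v k) (y i) * lt k (v' k) (y i)

/-- FACT 1. -/
def Fact1Stmt : Prop :=
  ∀ {ι : Type} [Fintype ι] [DecidableEq ι] (y : ι → V F), Ov y → Sp h y

/-- PER: for `a ⊥ x`, `∑_{y ≠ x} a(y) b(y) / ⟨x, y⟩^2 = 0`. -/
def PerStmt : Prop :=
  ∀ {ι : Type} [Fintype ι] [DecidableEq ι] (y : ι → V F), Ov y → 2 < Fintype.card F →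
    ∀ i (a b : V F), om (y i) a = 0 →
    ∑ j ∈ univ.erase i, om a (y j) * om b (y j) * ((om (y i) (y j)) ^ 2)⁻¹ = 0

/-- FACT 1' (uses FACT 1, PER): three letters at the digit `0`, none at `1`, one at the others. -/
def Fact1pStmt : Prop :=
  ∀ {ι : Type} [Fintype ι] [DecidableEq ι] (y : ι → V F), Ov y → ∀ (a b c : V F)
    (v : ZMod h → V F), ∑ i, om a (y i) * om b (y i) * om c (y i) * ∏ k ∈ X h, lt k (v k) (y i) = 0

/-- EP (uses FACT 1): the digit `k` is empty, three letters at `k + 1`, two at the others. -/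
def EpStmt : Prop :=
  ∀ {ι : Type} [Fintype ι] [DecidableEq ι] (y : ι → V F), Ov y → ∀ (k : ZMod h) (a b c : V F)
    (v v' : ZMod h → V F), ∑ i, lt (k + 1) a (y i) * lt (k + 1) b (y i) * lt (k + 1) c (y i) *
      ∏ n ∈ (univ.erase k).erase (k + 1), lt n (v n) (y i) * lt n (v' n) (y i) = 0

/-- BF (uses FACT 1, EP): `∑ Q a b z_1 ∏ v_k v'_k = ⟨a, b⟩ T(z; v, v')`. -/
def BfStmt : Prop :=
  ∀ {ι : Type} [Fintype ι] [DecidableEq ι] (y : ι → V F), Ov y → ∀ (a b z : V F)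
    (v v' : ZMod h → V F), ∑ i, Qf (y i) * om a (y i) * om b (y i) * lt (1 : ZMod h) z (y i) *
      ∏ k ∈ X h, lt k (v k) (y i) * lt k (v' k) (y i) = om a b * TT y z v v'

/-- E5W (uses FACT 1, FACT 1', BF). -/
def E5wStmt : Prop :=
  ∀ {ι : Type} [Fintype ι] [DecidableEq ι] (y : ι → V F), Ov y → ∀ i (v : ZMod h → V F),
    TT y (frV (1 : ZMod h) (y i)) (fun k => frV k (y i)) v =
      Qf (y i) * ∏ k ∈ X h, lt k (v k) (y i)

/-- ALT, QV (use EP, BF, E5W): at every digit `k ≠ 0, 1` the form `T` is alternating and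
`Q`-traceless. -/
def AltQvStmt : Prop :=
  ∀ {ι : Type} [Fintype ι] [DecidableEq ι] (y : ι → V F), Ov y → ∀ k ∈ X h, ∀ (z : V F)
    (v v' : ZMod h → V F), (v k = v' k → TT y z v v' = 0) ∧
      TT y z (Function.update v k (Pi.single 0 1)) (Function.update v' k (Pi.single 3 1)) +
      TT y z (Function.update v k (Pi.single 1 1)) (Function.update v' k (Pi.single 2 1)) = 0

/-- THE (uses FACT 1, E5W, ALT, QV): the structure operator exists. -/
def TheStmt : Prop :=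
  ∀ {ι : Type} [Fintype ι] [DecidableEq ι] (y : ι → V F), Ov y →
    ∃ Θ : V F →ₗ[F] Module.End F (E F h), Th y Θ

end Words

/-! ### The result for functions -/

/-- FUN (assembly): every ovoid function over a field with `2^h` elements, `h ≥ 2`, has algebraic
degree at most two. -/
def FunStmt : Prop :=
  ∀ (F : Type) [Field F] [Fintype F] (h : ℕ), 2 ≤ h → Fintype.card F = 2 ^ h →
    ∀ f : F × F → F, (∀ u v : F × F, u ≠ v → f u + f v ≠ u.1 * v.2 + u.2 * v.1) →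
    (∀ u v w : F × F, u ≠ v → u ≠ w → v ≠ w →
      LinearIndependent F ![![1, u.1, u.2, f u], ![1, v.1, v.2, f v], ![1, w.1, w.2, f w]]) →
    Quad f

end Pool.OVP
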